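import Mathlib

/-!
# Min-plus programs for directed distance: definitions
-/

namespace Pool.Agent.Lib.MP_f83138_lc.MinPlus

/-- One instruction of a `(min, +)` straight-line program with `w` registers whose inputs are the
entries of an `N × N` matrix. -/
inductive Instr (N w : ℕ) : Type
  /-- `load r a b` puts the input entry of the ordered pair `(a, b)` into register `r` -/
  | load (r : Fin w) (a b : Fin N)
  /-- `const r c` puts the constant `c` into register `r` -/
  | const (r : Fin w) (c : ℕ∞)
  /-- `min r r₁ r₂` puts the minimum of registers `r₁`, `r₂` into register `r` -/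
  | min (r r₁ r₂ : Fin w)
  /-- `add r r₁ r₂` puts the sum of registers `r₁`, `r₂` into register `r` -/
  | add (r r₁ r₂ : Fin w)

/-- The new register contents after one instruction, on input matrix `x`. -/
noncomputable def Instr.step {N w : ℕ} (x : Fin N → Fin N → ℕ∞) :
    Instr N w → (Fin w → ℕ∞) → (Fin w → ℕ∞)
  | .load r a b, ρ => Function.update ρ r (x a b)
  | .const r c, ρ => Function.update ρ r c
  | .min r r₁ r₂, ρ => Function.update ρ r (ρ r₁ ⊓ ρ r₂)
  | .add r r₁ r₂, ρ => Function.update ρ r (ρ r₁ + ρ r₂)

/-- A `(min, +)` straight-line program: a list of instructions and an output register. -/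
structure Prog (N w : ℕ) where
  /-- the instructions, in the order of their execution -/
  code : List (Instr N w)
  /-- the output register -/
  out : Fin w

/-- The value that the program computes on input matrix `x`; all registers start at `∞`. -/
noncomputable def Prog.eval {N w : ℕ} (P : Prog N w) (x : Fin N → Fin N → ℕ∞) : ℕ∞ :=
  P.code.foldl (fun ρ I => I.step x ρ) (fun _ => ⊤) P.out

open Classical in
/-- The matrix of the digraph with edge set `E`: entry `1` at an edge, `∞` elsewhere. -/
noncomputable def lengthMatrix {N : ℕ} (E : Set (Fin N × Fin N)) (a b : Fin N) : ℕ∞ :=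
  if (a, b) ∈ E then 1 else ⊤

/-- `IsWalk E a p b`: the vertices `a, p₁, …, p_k, b` (`p` a list) form a walk in the digraph with
edge set `E`. -/
def IsWalk {N : ℕ} (E : Set (Fin N × Fin N)) : Fin N → List (Fin N) → Fin N → Prop
  | a, [], b => (a, b) ∈ E
  | a, v :: p, b => (a, v) ∈ E ∧ IsWalk E v p b

/-- The length of a shortest walk with at least one edge from `s` to `t` in the digraph with edge
set `E`, and `∞` if there is none; for `s ≠ t` this is the distance from `s` to `t`. -/
noncomputable def dist {N : ℕ} (E : Set (Fin N × Fin N)) (s t : Fin N) : ℕ∞ :=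
  ⨅ (p : List (Fin N)) (_ : IsWalk E s p t), ((p.length + 1 : ℕ) : ℕ∞)

/-- The program computes the distance from `s` to `t` in every digraph on `Fin N`. -/
def Prog.Solves {N w : ℕ} (P : Prog N w) (s t : Fin N) : Prop :=
  ∀ E : Set (Fin N × Fin N), P.eval (lengthMatrix E) = dist E s t

end Pool.Agent.Lib.MP_f83138_lc.MinPlus
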