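import Mathlib
import Pool.Agent.Lib.MP_f83138_lc.MinPlusDefs

/-!
# Space lower bound for min-plus programs for directed distance: proof
-/

namespace Pool.Agent.Lib.MP_f83138_lc.MinPlus

/-! ### Formal contents of the registers -/

/-- A formal term: a constant and a multiset of input entries. -/
abbrev Term (N : ℕ) := ℕ × Multiset (Fin N × Fin N)

/-- The value of a formal term. -/
noncomputable def tval {N : ℕ} (x : Fin N → Fin N → ℕ∞) (p : Term N) : ℕ∞ :=
  (p.1 : ℕ∞) + (p.2.map (fun e => x e.1 e.2)).sum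

lemma tval_add {N : ℕ} (x : Fin N → Fin N → ℕ∞) (p q : Term N) :
    tval x (p + q) = tval x p + tval x q := by
  simp only [tval, Prod.fst_add, Prod.snd_add, Multiset.map_add, Multiset.sum_add, Nat.cast_add]
  ring

lemma mk_zero_add {N : ℕ} (a b : Multiset (Fin N × Fin N)) :
    ((0, a) : Term N) + ((0, b) : Term N) = ((0, a + b) : Term N) := by
  simp

/-- The effect of an instruction on formal contents. -/
def Instr.cstep {N w : ℕ} : Instr N w → (Fin w → Set (Term N)) → (Fin w → Set (Term N))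
  | .load r a b, S => Function.update S r {(0, {(a, b)})}
  | .const r c, S => Function.update S r {p | (p.1 : ℕ∞) = c ∧ p.2 = 0}
  | .min r r₁ r₂, S => Function.update S r (S r₁ ∪ S r₂)
  | .add r r₁ r₂, S => Function.update S r {p | ∃ p₁ ∈ S r₁, ∃ p₂ ∈ S r₂, p = p₁ + p₂}

/-- The register contents after a list of instructions. -/
noncomputable def regs {N w : ℕ} (x : Fin N → Fin N → ℕ∞) (l : List (Instr N w)) : Fin w → ℕ∞ :=
  l.foldl (fun ρ I => I.step x ρ) (fun _ => ⊤)

/-- The formal contents after a list of instructions. -/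
def cont {N w : ℕ} (l : List (Instr N w)) : Fin w → Set (Term N) :=
  l.foldl (fun S I => I.cstep S) (fun _ => ∅)

lemma regs_snoc {N w : ℕ} (x : Fin N → Fin N → ℕ∞) (l : List (Instr N w)) (I : Instr N w) :
    regs x (l ++ [I]) = I.step x (regs x l) := by
  simp [regs, List.foldl_append]

lemma cont_snoc {N w : ℕ} (l : List (Instr N w)) (I : Instr N w) :
    cont (l ++ [I]) = I.cstep (cont l) := by
  simp [cont, List.foldl_append]

lemma regs_le {N w : ℕ} (x : Fin N → Fin N → ℕ∞) (l : List (Instr N w)) :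
    ∀ (r : Fin w) (p : Term N), p ∈ cont l r → regs x l r ≤ tval x p := by
  induction l using List.reverseRecOn with
  | nil => intro r p hp; simp [cont] at hp
  | append_singleton l I ih =>
    intro r p hp
    rw [cont_snoc] at hp
    rw [regs_snoc]
    cases I with
    | load r' a b =>
      simp only [Instr.cstep, Instr.step, Function.update_apply] at hp ⊢
      split_ifs at hp ⊢
      · rw [Set.mem_singleton_iff] at hp
        subst hp
        simp [tval]
      · exact ih r p hp
    | const r' c =>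
      simp only [Instr.cstep, Instr.step, Function.update_apply] at hp ⊢
      split_ifs at hp ⊢
      · obtain ⟨h1, h2⟩ := hp
        simp [tval, h1, h2]
      · exact ih r p hp
    | min r' r₁ r₂ =>
      simp only [Instr.cstep, Instr.step, Function.update_apply] at hp ⊢
      split_ifs at hp ⊢
      · rcases hp with hp | hp
        · exact inf_le_left.trans (ih r₁ p hp)
        · exact inf_le_right.trans (ih r₂ p hp)
      · exact ih r p hp
    | add r' r₁ r₂ =>
      simp only [Instr.cstep, Instr.step, Function.update_apply] at hp ⊢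
      split_ifs at hp ⊢
      · obtain ⟨p₁, h1, p₂, h2, rfl⟩ := hp
        rw [tval_add]
        exact add_le_add (ih r₁ p₁ h1) (ih r₂ p₂ h2)
      · exact ih r p hp

lemma exists_le_regs {N w : ℕ} (x : Fin N → Fin N → ℕ∞) (l : List (Instr N w)) :
    ∀ (r : Fin w), regs x l r ≠ ⊤ → ∃ p ∈ cont l r, tval x p ≤ regs x l r := by
  induction l using List.reverseRecOn with
  | nil => intro r h; simp [regs] at h
  | append_singleton l I ih =>
    intro r h
    rw [cont_snoc]
    rw [regs_snoc] at h ⊢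
    cases I with
    | load r' a b =>
      simp only [Instr.cstep, Instr.step, Function.update_apply] at h ⊢
      split_ifs at h ⊢
      · exact ⟨_, rfl, by simp [tval]⟩
      · exact ih r h
    | const r' c =>
      simp only [Instr.cstep, Instr.step, Function.update_apply] at h ⊢
      split_ifs at h ⊢
      · obtain ⟨k, rfl⟩ := ENat.ne_top_iff_exists.mp h
        exact ⟨(k, 0), ⟨rfl, rfl⟩, by simp [tval]⟩
      · exact ih r h
    | min r' r₁ r₂ =>
      simp only [Instr.cstep, Instr.step, Function.update_apply] at h ⊢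
      split_ifs at h ⊢
      · rcases le_total (regs x l r₁) (regs x l r₂) with h12 | h12
        · rw [inf_eq_left.mpr h12] at h ⊢
          obtain ⟨p, hp, hle⟩ := ih r₁ h
          exact ⟨p, Or.inl hp, hle⟩
        · rw [inf_eq_right.mpr h12] at h ⊢
          obtain ⟨p, hp, hle⟩ := ih r₂ h
          exact ⟨p, Or.inr hp, hle⟩
      · exact ih r h
    | add r' r₁ r₂ =>
      simp only [Instr.cstep, Instr.step, Function.update_apply] at h ⊢
      split_ifs at h ⊢
      · have h1 : regs x l r₁ ≠ ⊤ := by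
          intro hh; exact h (by rw [hh, top_add])
        have h2 : regs x l r₂ ≠ ⊤ := by
          intro hh; exact h (by rw [hh, add_top])
        obtain ⟨p₁, hp₁, hle₁⟩ := ih r₁ h1
        obtain ⟨p₂, hp₂, hle₂⟩ := ih r₂ h2
        exact ⟨p₁ + p₂, ⟨p₁, hp₁, p₂, hp₂, rfl⟩, by
          rw [tval_add]; exact add_le_add hle₁ hle₂⟩
      · exact ih r h

/-! ### Layered paths -/

/-- An embedding of `m` layers of `n` vertices avoiding `s ≠ t` in `Fin N`. -/
structure Lay (n m N : ℕ) where
  /-- the vertices of the layers -/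
  pos : ℕ → Fin n → Fin N
  /-- source -/
  s : Fin N
  /-- target -/
  t : Fin N
  inj : ∀ i < m, ∀ j < m, ∀ a b, pos i a = pos j b → i = j ∧ a = b
  nes : ∀ i < m, ∀ a, pos i a ≠ s
  net : ∀ i < m, ∀ a, pos i a ≠ t
  hst : s ≠ t

variable {n m N w : ℕ}

/-- The vertices of the path of `u`. -/
def Lay.P (L : Lay n m N) (u : ℕ → Fin n) : ℕ → Fin N
  | 0 => L.s
  | j + 1 => if j < m then L.pos j (u j) else L.t

/-- The edges of the path of `u`. -/
def Lay.edge (L : Lay n m N) (u : ℕ → Fin n) (i : ℕ) : Fin N × Fin N :=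
  (L.P u i, L.P u (i + 1))

/-- The edge set of the path of `u`. -/
def Lay.M (L : Lay n m N) (u : ℕ → Fin n) : Multiset (Fin N × Fin N) :=
  (Multiset.range (m + 1)).map (L.edge u)

lemma Lay.P_inj (L : Lay n m N) {u v : ℕ → Fin n} {i j : ℕ} (hi : i ≤ m + 1) (hj : j ≤ m + 1)
    (h : L.P u i = L.P v j) : i = j := by
  rcases i with _ | i <;> rcases j with _ | j
  · rfl
  · simp only [Lay.P] at h
    split_ifs at h with h1
    · exact absurd h.symm (L.nes j h1 _)
    · exact absurd h L.hst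
  · simp only [Lay.P] at h
    split_ifs at h with h1
    · exact absurd h (L.nes i h1 _)
    · exact absurd h.symm L.hst
  · simp only [Lay.P] at h
    split_ifs at h with h1 h2 h2
    · rw [(L.inj i h1 j h2 _ _ h).1]
    · exact absurd h (L.net i h1 _)
    · exact absurd h.symm (L.net j h2 _)
    · omega

lemma Lay.P_eq (L : Lay n m N) {u v : ℕ → Fin n} {i : ℕ} (hi : i < m)
    (h : L.P u (i + 1) = L.P v (i + 1)) : u i = v i := by
  simp only [Lay.P, if_pos hi] at h
  exact (L.inj i hi i hi _ _ h).2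

lemma Lay.P_congr (L : Lay n m N) {u v : ℕ → Fin n} {j : ℕ} (h : ∀ i < j, u i = v i) :
    L.P u j = L.P v j := by
  rcases j with _ | j
  · rfl
  · simp only [Lay.P]
    rw [h j (Nat.lt_succ_self j)]

lemma Lay.edge_inj (L : Lay n m N) {u v : ℕ → Fin n} {i j : ℕ} (hi : i ≤ m) (hj : j ≤ m)
    (h : L.edge u i = L.edge v j) : i = j :=
  L.P_inj (by omega) (by omega) (congrArg Prod.fst h)

lemma Lay.edge_left (L : Lay n m N) {u v : ℕ → Fin n} {i : ℕ} (hi : i < m)
    (h : L.edge u i = L.edge v i) : u i = v i :=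
  L.P_eq hi (congrArg Prod.snd h)

lemma Lay.edge_right (L : Lay n m N) {u v : ℕ → Fin n} {i : ℕ} (hi : i < m)
    (h : L.edge u (i + 1) = L.edge v (i + 1)) : u i = v i :=
  L.P_eq hi (congrArg Prod.fst h)

lemma Lay.mem_M (L : Lay n m N) {u : ℕ → Fin n} {e : Fin N × Fin N} :
    e ∈ L.M u ↔ ∃ i ≤ m, L.edge u i = e := by
  simp only [Lay.M, Multiset.mem_map, Multiset.mem_range, Nat.lt_succ_iff]

lemma Lay.card_M (L : Lay n m N) (u : ℕ → Fin n) : Multiset.card (L.M u) = m + 1 := by
  simp [Lay.M]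

lemma Lay.nodup_M (L : Lay n m N) (u : ℕ → Fin n) : (L.M u).Nodup := by
  refine Multiset.Nodup.map_on ?_ (Multiset.nodup_range _)
  intro i hi j hj h
  rw [Multiset.mem_range] at hi hj
  exact L.edge_inj (by omega) (by omega) h

/-- A walk inside a set of layered edges, starting at the `j`-th vertex of the path of `w`, gives
the rest of a layered path. -/
lemma Lay.walk (L : Lay n m N) (D : Set (Fin N × Fin N))
    (hD : ∀ e ∈ D, ∃ u : ℕ → Fin n, ∃ i ≤ m, L.edge u i = e) (p : List (Fin N)) :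
    ∀ (j : ℕ) (z : ℕ → Fin n), j ≤ m → IsWalk D (L.P z j) p L.t →
      ∃ u : ℕ → Fin n, (∀ i < j, u i = z i) ∧ (∀ i, j ≤ i → i ≤ m → L.edge u i ∈ D) ∧
        m - j ≤ p.length := by
  induction p with
  | nil =>
    intro j z hj h
    simp only [IsWalk] at h
    obtain ⟨u', i, hi, he⟩ := hD _ h
    have h1 : L.P u' i = L.P z j := congrArg Prod.fst he
    have hij : i = j := L.P_inj (by omega) (by omega) h1
    subst hij
    have h2 : L.P u' (i + 1) = L.t := congrArg Prod.snd he
    have him : i = m := by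
      by_contra hne
      have hlt : i < m := by omega
      simp only [Lay.P, if_pos hlt] at h2
      exact L.net i hlt _ h2
    subst him
    refine ⟨z, fun _ _ => rfl, ?_, by simp⟩
    intro i' h1' h2'
    have : i' = i := by omega
    subst this
    have : L.edge z i' = (L.P z i', L.t) := by
      simp [Lay.edge, Lay.P]
    rw [this]
    exact h
  | cons v p ih =>
    intro j z hj h
    simp only [IsWalk] at h
    obtain ⟨hev, hw⟩ := h
    obtain ⟨u', i, hi, he⟩ := hD _ hev
    have h1 : L.P u' i = L.P z j := congrArg Prod.fst he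
    have hij : i = j := L.P_inj (by omega) (by omega) h1
    subst hij
    have h2 : L.P u' (i + 1) = v := congrArg Prod.snd he
    rcases Nat.lt_or_ge i m with him | him
    · have hv : v = L.P (Function.update z i (u' i)) (i + 1) := by
        rw [← h2]
        simp [Lay.P, him]
      rw [hv] at hw
      obtain ⟨u, hu1, hu2, hu3⟩ := ih (i + 1) _ (by omega) hw
      refine ⟨u, ?_, ?_, ?_⟩
      · intro i' hi'
        rw [hu1 i' (by omega), Function.update_of_ne (by omega)]
      · intro i' h1' h2'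
        rcases Nat.lt_or_ge i i' with hlt | hge
        · exact hu2 i' (by omega) h2'
        · have : i' = i := by omega
          subst this
          have e1 : L.P u i' = L.P z i' := by
            apply L.P_congr
            intro i'' hi''
            rw [hu1 i'' (by omega), Function.update_of_ne (by omega)]
          have e2 : L.P u (i' + 1) = v := by
            rw [hv]
            exact L.P_congr hu1
          have : L.edge u i' = (L.P z i', v) := by
            rw [Lay.edge, e1, e2]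
          rw [this]
          exact hev
      · simp only [List.length_cons]; omega
    · have him' : i = m := by omega
      subst him'
      refine ⟨z, fun _ _ => rfl, ?_, by simp⟩
      intro i' h1' h2'
      have : i' = i := by omega
      subst this
      have h3 : L.edge z i' = (L.P z i', v) := by
        rw [← h2]
        simp [Lay.edge, Lay.P]
      rw [h3]
      exact hev

lemma Lay.M_le_of_walk (L : Lay n m N) (hn : 0 < n) (b : Multiset (Fin N × Fin N))
    (hb : ∀ e ∈ b, ∃ u : ℕ → Fin n, ∃ i ≤ m, L.edge u i = e) (p : List (Fin N))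
    (hp : IsWalk {e | e ∈ b} L.s p L.t) : (∃ u : ℕ → Fin n, L.M u ≤ b) ∧ m ≤ p.length := by
  obtain ⟨u, -, hu, hlen⟩ := L.walk {e | e ∈ b} hb p 0 (fun _ => ⟨0, hn⟩) (Nat.zero_le _) hp
  refine ⟨⟨u, ?_⟩, by simpa using hlen⟩
  rw [Multiset.le_iff_subset (L.nodup_M u)]
  intro e he
  obtain ⟨i, hi, rfl⟩ := L.mem_M.mp he
  exact hu i (Nat.zero_le _) hi

/-- The path of `u` is a walk. -/
lemma Lay.isWalk_path (L : Lay n m N) (u : ℕ → Fin n) (D : Set (Fin N × Fin N)) :
    ∀ (k j : ℕ), j + k = m → (∀ i, j ≤ i → i ≤ m → L.edge u i ∈ D) →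
      ∃ p : List (Fin N), IsWalk D (L.P u j) p L.t ∧ p.length = k := by
  intro k
  induction k with
  | zero =>
    intro j hj h
    refine ⟨[], ?_, rfl⟩
    have := h j le_rfl (by omega)
    have e : L.edge u j = (L.P u j, L.t) := by
      simp only [Lay.edge, Lay.P]
      rw [if_neg (by omega)]
    rw [e] at this
    exact this
  | succ k ih =>
    intro j hj h
    obtain ⟨p, hp, hlen⟩ := ih (j + 1) (by omega) (fun i h1 h2 => h i (by omega) h2)
    refine ⟨L.P u (j + 1) :: p, ⟨h j le_rfl (by omega), hp⟩, by simp [hlen]⟩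

/-! ### The final content -/

lemma tval_of_mem {E : Set (Fin N × Fin N)} {p : Term N} (h : ∀ e ∈ p.2, e ∈ E) :
    tval (lengthMatrix E) p = ((p.1 + Multiset.card p.2 : ℕ) : ℕ∞) := by
  have h1 : p.2.map (fun e => lengthMatrix E e.1 e.2) = p.2.map (fun _ => (1 : ℕ∞)) := by
    refine Multiset.map_congr rfl ?_
    intro e he
    simp [lengthMatrix, h e he]
  rw [tval, h1]
  simp

lemma mem_of_tval_ne_top {E : Set (Fin N × Fin N)} {p : Term N}
    (h : tval (lengthMatrix E) p ≠ ⊤) : ∀ e ∈ p.2, e ∈ E := by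
  intro e he
  by_contra hne
  apply h
  have h1 : lengthMatrix E e.1 e.2 = ⊤ := by
    simp [lengthMatrix, hne]
  have h2 : lengthMatrix E e.1 e.2 ≤ (p.2.map (fun e => lengthMatrix E e.1 e.2)).sum :=
    Multiset.le_sum_of_mem (Multiset.mem_map_of_mem (fun e => lengthMatrix E e.1 e.2) he)
  rw [h1, top_le_iff] at h2
  rw [tval, h2, add_top]

lemma dist_le {E : Set (Fin N × Fin N)} {s t : Fin N} {p : List (Fin N)} (h : IsWalk E s p t) :
    dist E s t ≤ ((p.length + 1 : ℕ) : ℕ∞) :=
  iInf₂_le p h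

lemma exists_walk {E : Set (Fin N × Fin N)} {s t : Fin N} (h : dist E s t ≠ ⊤) :
    ∃ p, IsWalk E s p t := by
  by_contra hne
  push Not at hne
  apply h
  simp [dist, hne]

lemma final_ge (L : Lay n m N) (P : Prog N w) (hP : P.Solves L.s L.t) (hn : 0 < n)
    {p : Term N} (hp : p ∈ cont P.code P.out)
    (hl : ∀ e ∈ p.2, ∃ u : ℕ → Fin n, ∃ i ≤ m, L.edge u i = e) :
    ∃ u : ℕ → Fin n, L.M u ≤ p.2 := by
  have h1 := regs_le (lengthMatrix {e | e ∈ p.2}) P.code P.out p hp
  have h2 := hP {e | e ∈ p.2}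
  rw [tval_of_mem (E := {e | e ∈ p.2}) (p := p) (fun e he => he)] at h1
  have h3 : dist {e | e ∈ p.2} L.s L.t ≠ ⊤ := by
    rw [← h2]
    exact ne_top_of_le_ne_top (ENat.natCast_ne_top _) h1
  obtain ⟨q, hq⟩ := exists_walk h3
  exact (L.M_le_of_walk hn p.2 hl q hq).1

lemma final_path (L : Lay n m N) (P : Prog N w) (hP : P.Solves L.s L.t) (hn : 0 < n)
    (u : ℕ → Fin n) : ((0, L.M u) : Term N) ∈ cont P.code P.out := by
  have h2 := hP {e | e ∈ L.M u}
  obtain ⟨q, hq, hlen⟩ := L.isWalk_path u {e | e ∈ L.M u} m 0 (by omega)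
    (fun i _ hi => L.mem_M.mpr ⟨i, hi, rfl⟩)
  have h3 : dist {e | e ∈ L.M u} L.s L.t ≤ ((m + 1 : ℕ) : ℕ∞) := by
    have := dist_le hq
    rwa [hlen] at this
  have h4 : regs (lengthMatrix {e | e ∈ L.M u}) P.code P.out ≤ ((m + 1 : ℕ) : ℕ∞) :=
    h2.le.trans h3
  obtain ⟨p, hp, hple⟩ := exists_le_regs (lengthMatrix {e | e ∈ L.M u}) P.code P.out
    (ne_top_of_le_ne_top (ENat.natCast_ne_top _) h4)
  have h5 := hple.trans h4
  have h6 := mem_of_tval_ne_top (ne_top_of_le_ne_top (ENat.natCast_ne_top _) h5)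
  rw [tval_of_mem h6] at h5
  have h7 : p.1 + Multiset.card p.2 ≤ m + 1 := by exact_mod_cast h5
  obtain ⟨v, hv⟩ := final_ge L P hP hn hp (by
    intro e he
    obtain ⟨i, hi, he'⟩ := L.mem_M.mp (h6 e he)
    exact ⟨u, i, hi, he'⟩)
  have h8 := Multiset.card_le_card hv
  rw [L.card_M] at h8
  have h9 : L.M v = p.2 := Multiset.eq_of_le_of_card_le hv (by rw [L.card_M]; omega)
  have h10 : L.M v = L.M u := by
    refine Multiset.map_congr rfl ?_
    intro i hi
    rw [Multiset.mem_range] at hi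
    have h11 : L.edge v i ∈ L.M u := h6 _ (h9 ▸ L.mem_M.mpr ⟨i, by omega, rfl⟩)
    obtain ⟨j, hj, he⟩ := L.mem_M.mp h11
    have := L.edge_inj hj (by omega) he
    subst this
    exact he.symm
  have h12 : p = (0, L.M u) := by
    rw [← h10, h9]
    exact Prod.ext (by simp; omega) rfl
  rwa [h12] at hp

/-! ### Useful pieces -/

/-- `β`, in register `r` after the instructions `l`, is completed by `q` to the path of `u`, and
every other term of that register is completed by `q` to a term of the final content `F`. -/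
def Useful (L : Lay n m N) (F : Set (Term N)) (l : List (Instr N w)) (u : ℕ → Fin n) (r : Fin w)
    (β q : Multiset (Fin N × Fin N)) : Prop :=
  β + q = L.M u ∧ ((0, β) : Term N) ∈ cont l r ∧ ∀ p ∈ cont l r, p + ((0, q) : Term N) ∈ F

/-- Two useful pieces in one register: the label lemma. -/
lemma useful_label (L : Lay n m N) (P : Prog N w) (hP : P.Solves L.s L.t) (hn : 0 < n)
    {l : List (Instr N w)} {u u' : ℕ → Fin n} {r : Fin w} {β q β' q' : Multiset (Fin N × Fin N)}
    (h : Useful L (cont P.code P.out) l u r β q) (h' : Useful L (cont P.code P.out) l u' r β' q')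
    {i : ℕ} (hi : i < m) (hb : ¬ (L.edge u i ∈ β ↔ L.edge u (i + 1) ∈ β)) : u' i = u i := by
  obtain ⟨h1, h2, h3⟩ := h
  obtain ⟨h1', h2', h3'⟩ := h'
  -- the crossed sums contain paths
  have hmem : ∀ e, e ∈ β ∨ e ∈ q → ∃ j ≤ m, L.edge u j = e := by
    intro e he
    apply L.mem_M.mp
    rw [← h1, Multiset.mem_add]
    exact he
  have hmem' : ∀ e, e ∈ β' ∨ e ∈ q' → ∃ j ≤ m, L.edge u' j = e := by
    intro e he
    apply L.mem_M.mp
    rw [← h1', Multiset.mem_add]
    exact he
  have c1 := h3 _ h2'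
  have c2 := h3' _ h2
  rw [mk_zero_add] at c1 c2
  obtain ⟨v1, hv1⟩ := final_ge L P hP hn c1 (by
    intro e he
    rcases Multiset.mem_add.mp he with he | he
    · obtain ⟨j, hj, hh⟩ := hmem' e (Or.inl he); exact ⟨u', j, hj, hh⟩
    · obtain ⟨j, hj, hh⟩ := hmem e (Or.inr he); exact ⟨u, j, hj, hh⟩)
  obtain ⟨v2, hv2⟩ := final_ge L P hP hn c2 (by
    intro e he
    rcases Multiset.mem_add.mp he with he | he
    · obtain ⟨j, hj, hh⟩ := hmem e (Or.inl he); exact ⟨u, j, hj, hh⟩
    · obtain ⟨j, hj, hh⟩ := hmem' e (Or.inr he); exact ⟨u', j, hj, hh⟩)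
  have k1 := Multiset.card_le_card hv1
  have k2 := Multiset.card_le_card hv2
  have k3 := congrArg Multiset.card h1
  have k4 := congrArg Multiset.card h1'
  simp only [Multiset.card_add, L.card_M] at k1 k2 k3 k4
  have e1 : L.M v1 = β' + q := Multiset.eq_of_le_of_card_le hv1 (by
    simp only [Multiset.card_add, L.card_M]; omega)
  have hdis : ∀ e, e ∈ β → e ∈ q → False := by
    intro e hβ hq
    have := L.nodup_M u
    rw [← h1, Multiset.nodup_add] at this
    exact (Multiset.disjoint_left.mp this.2.2) hβ hq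
  have hor : ∀ j ≤ m, L.edge u j ∈ β ∨ L.edge u j ∈ q := by
    intro j hj
    rw [← Multiset.mem_add, h1]
    exact L.mem_M.mpr ⟨j, hj, rfl⟩
  -- an edge of `M v1` lies in `β'` or `q`
  have hv : ∀ j ≤ m, L.edge v1 j ∈ β' ∨ L.edge v1 j ∈ q := by
    intro j hj
    rw [← Multiset.mem_add, ← e1]
    exact L.mem_M.mpr ⟨j, hj, rfl⟩
  have hq1 : ∀ j ≤ m, L.edge u j ∈ q → L.edge v1 j = L.edge u j := by
    intro j hj hq
    have : L.edge u j ∈ L.M v1 := by
      rw [e1, Multiset.mem_add]; exact Or.inr hq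
    obtain ⟨j', hj', he⟩ := L.mem_M.mp this
    have := L.edge_inj hj' hj he
    subst this
    exact he
  have hβ1 : ∀ j ≤ m, L.edge u j ∈ β → L.edge u' j = L.edge v1 j := by
    intro j hj hβ
    rcases hv j hj with h4 | h4
    · obtain ⟨j', hj', he⟩ := hmem' _ (Or.inl h4)
      have := L.edge_inj hj' hj he
      subst this
      exact he
    · exfalso
      obtain ⟨j', hj', he⟩ := hmem _ (Or.inr h4)
      have := L.edge_inj hj' hj he
      subst this
      rw [← he] at h4
      exact hdis _ hβ h4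
  by_cases hb1 : L.edge u i ∈ β
  · have hb2 : L.edge u (i + 1) ∉ β := fun hh => hb ⟨fun _ => hh, fun _ => hb1⟩
    have hb3 : L.edge u (i + 1) ∈ q := (hor (i + 1) (by omega)).resolve_left hb2
    have a1 := L.edge_right hi (hq1 (i + 1) (by omega) hb3)
    have a2 := L.edge_left hi (hβ1 i (by omega) hb1)
    rw [a2, a1]
  · have hb2 : L.edge u (i + 1) ∈ β := by
      by_contra hh
      exact hb ⟨fun h => absurd h hb1, fun h => absurd h hh⟩
    have hb3 : L.edge u i ∈ q := (hor i (by omega)).resolve_left hb1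
    have a1 := L.edge_left hi (hq1 i (by omega) hb3)
    have a2 := L.edge_right hi (hβ1 (i + 1) (by omega) hb2)
    rw [a2, a1]

/-- One step back in time. -/
lemma useful_back (L : Lay n m N) (F : Set (Term N)) {l : List (Instr N w)} {I : Instr N w}
    {u : ℕ → Fin n} {r : Fin w} {β q : Multiset (Fin N × Fin N)}
    (h : Useful L F (l ++ [I]) u r β q) {e₀ e₁ : Fin N × Fin N} (h0 : e₀ ∈ β) (h1 : e₁ ∈ β)
    (hne : e₀ ≠ e₁) : ∃ r' β' q', Useful L F l u r' β' q' ∧ e₀ ∈ β' := by
  obtain ⟨a1, a2, a3⟩ := h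
  rw [cont_snoc] at a2 a3
  cases I with
  | load r' a b =>
    simp only [Instr.cstep, Function.update_apply] at a2 a3
    by_cases hr : r = r'
    · rw [if_pos hr] at a2
      rw [Set.mem_singleton_iff] at a2
      have : β = {(a, b)} := congrArg Prod.snd a2
      rw [this, Multiset.mem_singleton] at h0 h1
      exact absurd (h0.trans h1.symm) hne
    · rw [if_neg hr] at a2 a3
      exact ⟨r, β, q, ⟨a1, a2, a3⟩, h0⟩
  | const r' c =>
    simp only [Instr.cstep, Function.update_apply] at a2 a3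
    by_cases hr : r = r'
    · rw [if_pos hr] at a2
      have : β = 0 := a2.2
      rw [this] at h0
      exact absurd h0 (Multiset.notMem_zero _)
    · rw [if_neg hr] at a2 a3
      exact ⟨r, β, q, ⟨a1, a2, a3⟩, h0⟩
  | min r' r₁ r₂ =>
    simp only [Instr.cstep, Function.update_apply] at a2 a3
    by_cases hr : r = r'
    · rw [if_pos hr] at a2 a3
      rcases a2 with a2 | a2
      · exact ⟨r₁, β, q, ⟨a1, a2, fun p hp => a3 p (Or.inl hp)⟩, h0⟩
      · exact ⟨r₂, β, q, ⟨a1, a2, fun p hp => a3 p (Or.inr hp)⟩, h0⟩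
    · rw [if_neg hr] at a2 a3
      exact ⟨r, β, q, ⟨a1, a2, a3⟩, h0⟩
  | add r' r₁ r₂ =>
    simp only [Instr.cstep, Function.update_apply] at a2 a3
    by_cases hr : r = r'
    · rw [if_pos hr] at a2 a3
      obtain ⟨p₁, hp₁, p₂, hp₂, hsum⟩ := a2
      have hc : 0 = p₁.1 + p₂.1 := congrArg Prod.fst hsum
      have hβ : β = p₁.2 + p₂.2 := congrArg Prod.snd hsum
      have z1 : p₁ = (0, p₁.2) := Prod.ext (by simp; omega) rfl
      have z2 : p₂ = (0, p₂.2) := Prod.ext (by simp; omega) rfl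
      rw [hβ, Multiset.mem_add] at h0
      rcases h0 with h0 | h0
      · refine ⟨r₁, p₁.2, p₂.2 + q, ⟨?_, ?_, ?_⟩, h0⟩
        · rw [← add_assoc, ← hβ]; exact a1
        · rw [← z1]; exact hp₁
        · intro p hp
          have := a3 (p + p₂) ⟨p, hp, p₂, hp₂, rfl⟩
          rw [z2, add_assoc, mk_zero_add] at this
          exact this
      · refine ⟨r₂, p₂.2, p₁.2 + q, ⟨?_, ?_, ?_⟩, h0⟩
        · rw [← add_assoc, add_comm p₂.2 p₁.2, ← hβ]; exact a1
        · rw [← z2]; exact hp₂
        · intro p hp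
          have := a3 (p₁ + p) ⟨p₁, hp₁, p, hp, rfl⟩
          rw [z1, add_comm ((0, p₁.2) : Term N) p, add_assoc, mk_zero_add] at this
          exact this
    · rw [if_neg hr] at a2 a3
      exact ⟨r, β, q, ⟨a1, a2, a3⟩, h0⟩

/-! ### Blocks of consecutive vertices -/

/-- Some useful piece at time `t` contains all edges `a, …, a + ℓ`. -/
def Full (L : Lay n m N) (F : Set (Term N)) (code : List (Instr N w)) (t : ℕ) (u : ℕ → Fin n)
    (a ℓ : ℕ) : Prop :=
  ∃ r β q, Useful L F (code.take t) u r β q ∧ ∀ i, a ≤ i → i ≤ a + ℓ → L.edge u i ∈ β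

/-- Some useful piece at time `t` contains exactly one of two consecutive edges of the block. -/
def Broken (L : Lay n m N) (F : Set (Term N)) (code : List (Instr N w)) (t : ℕ) (u : ℕ → Fin n)
    (a ℓ : ℕ) : Prop :=
  ∃ r β q, Useful L F (code.take t) u r β q ∧
    ∃ i, a ≤ i ∧ i < a + ℓ ∧ ¬ (L.edge u i ∈ β ↔ L.edge u (i + 1) ∈ β)

/-- No useful piece at time `t` contains an edge `a, …, a + ℓ`. -/
def Triv (L : Lay n m N) (F : Set (Term N)) (code : List (Instr N w)) (t : ℕ) (u : ℕ → Fin n)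
    (a ℓ : ℕ) : Prop :=
  ∀ r β q, Useful L F (code.take t) u r β q → ∀ i, a ≤ i → i ≤ a + ℓ → L.edge u i ∉ β

lemma triv_of_not {L : Lay n m N} {F : Set (Term N)} {code : List (Instr N w)} {t : ℕ}
    {u : ℕ → Fin n} {a ℓ : ℕ} (h1 : ¬ Full L F code t u a ℓ) (h2 : ¬ Broken L F code t u a ℓ) :
    Triv L F code t u a ℓ := by
  intro r β q hU i hi1 hi2 hmem
  apply h1
  have hstep : ∀ j, a ≤ j → j < a + ℓ → (L.edge u j ∈ β ↔ L.edge u (j + 1) ∈ β) := by
    intro j h h'
    by_contra hc
    exact h2 ⟨r, β, q, hU, j, h, h', hc⟩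
  have hall : ∀ d, a + d ≤ a + ℓ → (L.edge u a ∈ β ↔ L.edge u (a + d) ∈ β) := by
    intro d
    induction d with
    | zero => intro _; rfl
    | succ d ih =>
      intro hd
      rw [ih (by omega), hstep (a + d) (by omega) (by omega)]
      rfl
  refine ⟨r, β, q, hU, ?_⟩
  intro j hj1 hj2
  have e1 := hall (i - a) (by omega)
  have e2 := hall (j - a) (by omega)
  rw [show a + (i - a) = i by omega] at e1
  rw [show a + (j - a) = j by omega] at e2
  exact e2.mp (e1.mpr hmem)

/-- The block goes from trivial at time `t₀` to full at some time in `(t₀, t₁]`. -/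
def Comp (L : Lay n m N) (F : Set (Term N)) (code : List (Instr N w)) (a ℓ t₀ t₁ : ℕ)
    (u : ℕ → Fin n) : Prop :=
  Triv L F code t₀ u a ℓ ∧ ∃ t, t₀ < t ∧ t ≤ t₁ ∧ Full L F code t u a ℓ

/-- The block values that are completed in `(t₀, t₁]` for some choice of the other vertices. -/
def GG (L : Lay n m N) (F : Set (Term N)) (code : List (Instr N w)) (a ℓ t₀ t₁ : ℕ) :
    Set (Fin ℓ → Fin n) :=
  {v | ∃ u : ℕ → Fin n, (∀ i : Fin ℓ, u (a + i) = v i) ∧ Comp L F code a ℓ t₀ t₁ u}

/-- The block values that are broken at time `t` for some choice of the other vertices. -/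
def PB (L : Lay n m N) (F : Set (Term N)) (code : List (Instr N w)) (a ℓ t : ℕ) :
    Set (Fin ℓ → Fin n) :=
  {v | ∃ u : ℕ → Fin n, (∀ i : Fin ℓ, u (a + i) = v i) ∧ Broken L F code t u a ℓ}

lemma ncard_fix_le {ℓ : ℕ} (j : Fin ℓ) (x : Fin n) (A : Set (Fin ℓ → Fin n))
    (hA : ∀ v ∈ A, v j = x) : n * A.ncard ≤ n ^ ℓ := by
  have h1 : n * A.ncard = Nat.card (Fin n × A) := by
    rw [Nat.card_prod, Nat.card_fin, Nat.card_coe_set_eq]
  have h2 : n ^ ℓ = Nat.card (Fin ℓ → Fin n) := by
    simp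
  rw [h1, h2]
  refine Nat.card_le_card_of_injective (fun yv : Fin n × A => Function.update yv.2.1 j yv.1) ?_
  rintro ⟨y, v, hv⟩ ⟨y', v', hv'⟩ h
  have h3 : Function.update v j y = Function.update v' j y' := h
  have h4 : y = y' := by
    have := congrFun h3 j
    simpa using this
  have h5 : v = v' := by
    funext i
    by_cases hij : i = j
    · subst hij
      rw [hA v hv, hA v' hv']
    · have := congrFun h3 i
      simpa [Function.update_of_ne hij] using this
  subst h4
  subst h5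
  rfl

lemma ncard_PB_le (L : Lay n m N) (P : Prog N w) (hP : P.Solves L.s L.t) (hn : 0 < n)
    (a ℓ t : ℕ) (ham : a + ℓ ≤ m) :
    n * (PB L (cont P.code P.out) P.code a ℓ t).ncard ≤ w * n ^ ℓ := by
  set F := cont P.code P.out with hF
  have hsub : PB L F P.code a ℓ t ⊆ ⋃ r ∈ (Finset.univ : Finset (Fin w)),
      {v : Fin ℓ → Fin n | ∃ u : ℕ → Fin n, (∀ i : Fin ℓ, u (a + i) = v i) ∧
        ∃ β q, Useful L F (P.code.take t) u r β q ∧
          ∃ i, a ≤ i ∧ i < a + ℓ ∧ ¬ (L.edge u i ∈ β ↔ L.edge u (i + 1) ∈ β)} := by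
    rintro v ⟨u, hu, r, β, q, hU, hi⟩
    simp only [Set.mem_iUnion]
    exact ⟨r, Finset.mem_univ r, u, hu, β, q, hU, hi⟩
  have hcard := (Set.ncard_le_ncard hsub (Set.toFinite _)).trans
    (Finset.set_ncard_biUnion_le _ _)
  refine (Nat.mul_le_mul_left n hcard).trans ?_
  rw [Finset.mul_sum]
  refine (Finset.sum_le_card_nsmul _ _ (n ^ ℓ) ?_).trans ?_
  · intro r _
    set A := {v : Fin ℓ → Fin n | ∃ u : ℕ → Fin n, (∀ i : Fin ℓ, u (a + i) = v i) ∧
        ∃ β q, Useful L F (P.code.take t) u r β q ∧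
          ∃ i, a ≤ i ∧ i < a + ℓ ∧ ¬ (L.edge u i ∈ β ↔ L.edge u (i + 1) ∈ β)} with hA
    rcases A.eq_empty_or_nonempty with he | ⟨v0, u0, hu0, β0, q0, hU0, i0, hi1, hi2, hi3⟩
    · rw [he]; simp
    · refine ncard_fix_le (⟨i0 - a, by omega⟩ : Fin ℓ) (u0 i0) A ?_
      rintro v ⟨u, hu, β, q, hU, -⟩
      have := useful_label L P hP hn hU0 hU (by omega : i0 < m) hi3
      rw [← hu ⟨i0 - a, by omega⟩, ← this]
      congr 1
      simp only []
      omega
  · simp

lemma full_congr {L : Lay n m N} {F : Set (Term N)} {code : List (Instr N w)} {t t' : ℕ}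
    {u : ℕ → Fin n} {a ℓ : ℕ} (h : code.take t = code.take t') (hf : Full L F code t u a ℓ) :
    Full L F code t' u a ℓ := by
  unfold Full at hf ⊢
  rwa [← h]

/-- Nothing of one vertex is completed by a single instruction. -/
lemma GG_one (L : Lay n m N) (F : Set (Term N)) (code : List (Instr N w)) (a t₀ : ℕ)
    (ha : a < m) : GG L F code a 1 t₀ (t₀ + 1) = ∅ := by
  rw [Set.eq_empty_iff_forall_notMem]
  rintro v ⟨u, -, hT, t, ht0, ht1, r, β, q, hU, hall⟩
  have ht : t = t₀ + 1 := by omega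
  subst ht
  have hmem0 := hall a le_rfl (by omega)
  have hmem1 := hall (a + 1) (by omega) le_rfl
  have hne : L.edge u a ≠ L.edge u (a + 1) := by
    intro h
    have := L.edge_inj (by omega) (by omega) h
    omega
  rcases Nat.lt_or_ge t₀ code.length with hlt | hge
  · rw [List.take_succ_eq_append_getElem hlt] at hU
    obtain ⟨r', β', q', hU', hmem⟩ := useful_back L F hU hmem0 hmem1 hne
    exact hT r' β' q' hU' a le_rfl (by omega) hmem
  · have : code.take (t₀ + 1) = code.take t₀ := by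
      rw [List.take_of_length_le (by omega), List.take_of_length_le (by omega)]
    rw [this] at hU
    exact hT r β q hU a le_rfl (by omega) hmem0

lemma GG_window_sub (L : Lay n m N) (F : Set (Term N)) (code : List (Instr N w))
    (a ℓ t₀ t₁ t₂ : ℕ) (h01 : t₀ ≤ t₁) :
    GG L F code a ℓ t₀ t₂ ⊆ GG L F code a ℓ t₀ t₁ ∪ (PB L F code a ℓ t₁ ∪
      GG L F code a ℓ t₁ t₂) := by
  rintro v ⟨u, hu, hT, t, ht0, ht1, hfull⟩
  rcases Nat.lt_or_ge t₁ t with hlt | hge
  · by_cases hf : Full L F code t₁ u a ℓ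
    · rcases Nat.eq_or_lt_of_le h01 with heq | hlt'
      · right; right
        subst heq
        exact ⟨u, hu, hT, t, ht0, ht1, hfull⟩
      · left
        exact ⟨u, hu, hT, t₁, hlt', le_rfl, hf⟩
    · by_cases hb : Broken L F code t₁ u a ℓ
      · right; left
        exact ⟨u, hu, hb⟩
      · right; right
        exact ⟨u, hu, triv_of_not hf hb, t, hlt, ht1, hfull⟩
  · left
    exact ⟨u, hu, hT, t, ht0, hge, hfull⟩

lemma GG_self (L : Lay n m N) (F : Set (Term N)) (code : List (Instr N w)) (a ℓ t₀ : ℕ) :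
    GG L F code a ℓ t₀ t₀ = ∅ := by
  rw [Set.eq_empty_iff_forall_notMem]
  rintro v ⟨u, -, hT, t, ht0, ht1, -⟩
  omega

lemma GG_window (L : Lay n m N) (P : Prog N w) (hP : P.Solves L.s L.t) (hn : 0 < n)
    (a ℓ τ g : ℕ) (ham : a + ℓ ≤ m)
    (hg : ∀ t₀, (GG L (cont P.code P.out) P.code a ℓ t₀ (t₀ + τ)).ncard ≤ g) (K t₀ : ℕ) :
    n * (GG L (cont P.code P.out) P.code a ℓ t₀ (t₀ + K * τ)).ncard ≤
      K * (n * g + w * n ^ ℓ) := by
  induction K with
  | zero => simp [GG_self]
  | succ K ih =>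
    have hsub := GG_window_sub L (cont P.code P.out) P.code a ℓ t₀ (t₀ + K * τ)
      (t₀ + (K + 1) * τ) (by omega)
    have h1 := (Set.ncard_le_ncard hsub (Set.toFinite _)).trans (Set.ncard_union_le _ _)
    have h2 := Set.ncard_union_le (PB L (cont P.code P.out) P.code a ℓ (t₀ + K * τ))
      (GG L (cont P.code P.out) P.code a ℓ (t₀ + K * τ) (t₀ + (K + 1) * τ))
    have h3 := ncard_PB_le L P hP hn a ℓ (t₀ + K * τ) ham
    have h4 := hg (t₀ + K * τ)
    rw [show t₀ + K * τ + τ = t₀ + (K + 1) * τ by ring] at h4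
    calc n * (GG L (cont P.code P.out) P.code a ℓ t₀ (t₀ + (K + 1) * τ)).ncard
        ≤ n * ((GG L (cont P.code P.out) P.code a ℓ t₀ (t₀ + K * τ)).ncard +
          ((PB L (cont P.code P.out) P.code a ℓ (t₀ + K * τ)).ncard +
          (GG L (cont P.code P.out) P.code a ℓ (t₀ + K * τ) (t₀ + (K + 1) * τ)).ncard)) :=
          Nat.mul_le_mul_left n (h1.trans (by omega))
      _ = n * (GG L (cont P.code P.out) P.code a ℓ t₀ (t₀ + K * τ)).ncard +
          (n * (PB L (cont P.code P.out) P.code a ℓ (t₀ + K * τ)).ncard +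
          n * (GG L (cont P.code P.out) P.code a ℓ (t₀ + K * τ) (t₀ + (K + 1) * τ)).ncard) := by
          ring
      _ ≤ K * (n * g + w * n ^ ℓ) + (w * n ^ ℓ + n * g) :=
          add_le_add ih (add_le_add h3 (Nat.mul_le_mul_left n h4))
      _ = (K + 1) * (n * g + w * n ^ ℓ) := by ring

lemma GG_prod (L : Lay n m N) (F : Set (Term N)) (code : List (Instr N w)) (a ℓ q t₀ t₁ : ℕ) :
    (GG L F code a (q * ℓ) t₀ t₁).ncard ≤
      ∏ i : Fin q, (GG L F code (a + i * ℓ) ℓ t₀ t₁).ncard := by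
  have h1 : ∏ i : Fin q, (GG L F code (a + i * ℓ) ℓ t₀ t₁).ncard =
      Nat.card (∀ i : Fin q, GG L F code (a + i * ℓ) ℓ t₀ t₁) := by
    rw [Nat.card_pi]
    exact Finset.prod_congr rfl (fun i _ => (Nat.card_coe_set_eq _).symm)
  rw [h1, ← Nat.card_coe_set_eq]
  have hlt : ∀ (i : Fin q) (j : Fin ℓ), i.1 * ℓ + j.1 < q * ℓ := by
    intro i j
    calc i.1 * ℓ + j.1 < i.1 * ℓ + ℓ := Nat.add_lt_add_left j.2 _
      _ = (i.1 + 1) * ℓ := by ring
      _ ≤ q * ℓ := Nat.mul_le_mul_right ℓ i.2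
  have hle : ∀ (i : Fin q), i.1 * ℓ + ℓ ≤ q * ℓ := by
    intro i
    calc i.1 * ℓ + ℓ = (i.1 + 1) * ℓ := by ring
      _ ≤ q * ℓ := Nat.mul_le_mul_right ℓ i.2
  refine Nat.card_le_card_of_injective (fun v : GG L F code a (q * ℓ) t₀ t₁ =>
    fun i : Fin q => (⟨fun j : Fin ℓ => v.1 ⟨i.1 * ℓ + j.1, hlt i j⟩, ?_⟩ :
      GG L F code (a + i * ℓ) ℓ t₀ t₁)) ?_
  · obtain ⟨v, u, hu, hT, t, ht0, ht1, r, β, q', hU, hall⟩ := v
    refine ⟨u, ?_, ?_, t, ht0, ht1, r, β, q', hU, ?_⟩
    · intro j
      have h2 := hu ⟨i.1 * ℓ + j.1, hlt i j⟩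
      have e : a + i.1 * ℓ + j.1 = a + (i.1 * ℓ + j.1) := add_assoc _ _ _
      change u (a + i.1 * ℓ + j.1) = v ⟨i.1 * ℓ + j.1, hlt i j⟩
      rw [e]
      exact h2
    · intro r' β' q'' hU' j hj1 hj2
      have := hle i
      exact hT r' β' q'' hU' j (by omega) (by omega)
    · intro j hj1 hj2
      have := hle i
      exact hall j (by omega) (by omega)
  · rintro ⟨v, hv⟩ ⟨v', hv'⟩ h
    apply Subtype.ext
    funext k
    have hℓ : 0 < ℓ := by
      rcases Nat.eq_zero_or_pos ℓ with h0 | h0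
      · exfalso
        have h1' : q * ℓ = 0 := by rw [h0, mul_zero]
        have := k.2
        omega
      · exact h0
    have hk1 : k.1 / ℓ < q := by
      rw [Nat.div_lt_iff_lt_mul hℓ]
      exact k.2
    have hk2 : k.1 % ℓ < ℓ := Nat.mod_lt _ hℓ
    have h2 := congrFun (congrArg Subtype.val (congrFun h ⟨k.1 / ℓ, hk1⟩)) ⟨k.1 % ℓ, hk2⟩
    have h3 : k.1 / ℓ * ℓ + k.1 % ℓ = k.1 := by
      rw [mul_comm]; exact Nat.div_add_mod _ _
    simp only [h3] at h2
    exact h2

/-- The induction over the block length. -/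
lemma GG_half (L : Lay n m N) (P : Prog N w) (hP : P.Solves L.s L.t) (hn : 0 < n)
    (q K : ℕ) (hK : 4 * K ≤ 2 ^ q) (hKw : 4 * (K * w) ≤ n) (k : ℕ) :
    ∀ a t₀, a + q ^ k ≤ m →
      2 * (GG L (cont P.code P.out) P.code a (q ^ k) t₀ (t₀ + K ^ k)).ncard ≤ n ^ (q ^ k) := by
  induction k with
  | zero =>
    intro a t₀ ha
    rw [pow_zero] at ha
    rw [pow_zero, pow_zero, GG_one L _ P.code a t₀ (by omega)]
    simp
  | succ k ih =>
    intro a t₀ ha
    rcases Nat.eq_zero_or_pos q with hq | hq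
    · subst hq
      have : K = 0 := by
        have := hK
        simp at this
        omega
      subst this
      simp [GG_self]
    set ℓ := q ^ k with hℓ
    have hqℓ : q ^ (k + 1) = q * ℓ := by rw [pow_succ, mul_comm]
    rw [hqℓ] at ha ⊢
    have hprod : ∀ t₁, 2 ^ q * (GG L (cont P.code P.out) P.code a (q * ℓ) t₁ (t₁ + K ^ k)).ncard ≤
        n ^ (q * ℓ) := by
      intro t₁
      have h1 := GG_prod L (cont P.code P.out) P.code a ℓ q t₁ (t₁ + K ^ k)
      calc 2 ^ q * (GG L (cont P.code P.out) P.code a (q * ℓ) t₁ (t₁ + K ^ k)).ncard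
          ≤ 2 ^ q * ∏ i : Fin q,
            (GG L (cont P.code P.out) P.code (a + i * ℓ) ℓ t₁ (t₁ + K ^ k)).ncard :=
            Nat.mul_le_mul_left _ h1
        _ = ∏ i : Fin q,
            (2 * (GG L (cont P.code P.out) P.code (a + i * ℓ) ℓ t₁ (t₁ + K ^ k)).ncard) := by
            rw [Finset.prod_mul_distrib]; simp
        _ ≤ ∏ _i : Fin q, n ^ ℓ := by
            refine Finset.prod_le_prod' ?_
            intro i _
            refine ih (a + i * ℓ) t₁ ?_
            have : i.1 * ℓ + ℓ ≤ q * ℓ := by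
              calc i.1 * ℓ + ℓ = (i.1 + 1) * ℓ := by ring
                _ ≤ q * ℓ := Nat.mul_le_mul_right ℓ i.2
            omega
        _ = n ^ (q * ℓ) := by
            simp only [Finset.prod_const, Finset.card_univ, Fintype.card_fin]
            rw [← pow_mul, mul_comm]
    -- the maximum over starting times
    obtain ⟨g, hg1, hg2⟩ : ∃ g, (∀ t₁, (GG L (cont P.code P.out) P.code a (q * ℓ) t₁
        (t₁ + K ^ k)).ncard ≤ g) ∧ 2 ^ q * g ≤ n ^ (q * ℓ) := by
      refine ⟨n ^ (q * ℓ) / 2 ^ q, ?_, ?_⟩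
      · intro t₁
        rw [Nat.le_div_iff_mul_le (by positivity), mul_comm]
        exact hprod t₁
      · exact Nat.mul_div_le _ _
    have hw := GG_window L P hP hn a (q * ℓ) (K ^ k) g ha hg1 K t₀
    rw [show K * K ^ k = K ^ (k + 1) by rw [pow_succ, mul_comm]] at hw
    set X := (GG L (cont P.code P.out) P.code a (q * ℓ) t₀ (t₀ + K ^ (k + 1))).ncard with hX
    have h5 : 4 * K * g ≤ n ^ (q * ℓ) := (Nat.mul_le_mul_right g hK).trans hg2
    have h6 : 4 * (K * w) * n ^ (q * ℓ) ≤ n * n ^ (q * ℓ) := Nat.mul_le_mul_right _ hKw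
    have h7 : n * (4 * K * g) ≤ n * n ^ (q * ℓ) := Nat.mul_le_mul_left n h5
    have h8 : 4 * (n * X) ≤ 4 * (K * (n * g + w * n ^ (q * ℓ))) := Nat.mul_le_mul_left 4 hw
    have h9 : n * (4 * X) ≤ n * (2 * n ^ (q * ℓ)) := by
      calc n * (4 * X) = 4 * (n * X) := by ring
        _ ≤ 4 * (K * (n * g + w * n ^ (q * ℓ))) := h8
        _ = n * (4 * K * g) + 4 * (K * w) * n ^ (q * ℓ) := by ring
        _ ≤ n * n ^ (q * ℓ) + n * n ^ (q * ℓ) := add_le_add h7 h6
        _ = n * (2 * n ^ (q * ℓ)) := by ring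
    have h10 := Nat.le_of_mul_le_mul_left h9 hn
    omega

/-! ### The explicit trade-off -/

lemma exists_lay (s t : Fin N) (hst : s ≠ t) (h : m * n + 2 ≤ N) :
    ∃ L : Lay n m N, L.s = s ∧ L.t = t := by
  classical
  have hc : Fintype.card (Fin m × Fin n) ≤ Fintype.card (({s, t}ᶜ : Finset (Fin N)) : Type) := by
    rw [Fintype.card_coe, Finset.card_compl, Finset.card_pair hst, Fintype.card_prod,
      Fintype.card_fin, Fintype.card_fin, Fintype.card_fin]
    omega
  obtain ⟨e⟩ := Function.Embedding.nonempty_of_card_le hc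
  have hmem : ∀ z, (e z).1 ≠ s ∧ (e z).1 ≠ t := by
    intro z
    have := (e z).2
    rw [Finset.mem_compl, Finset.mem_insert, Finset.mem_singleton, not_or] at this
    exact this
  refine ⟨⟨fun i a => if h : i < m then (e (⟨i, h⟩, a)).1 else s, s, t, ?_, ?_, ?_, hst⟩,
    rfl, rfl⟩
  · intro i hi j hj a b hab
    simp only [dif_pos hi, dif_pos hj] at hab
    have h1 := e.injective (Subtype.ext hab)
    rw [Prod.mk.injEq, Fin.mk.injEq] at h1
    exact h1
  · intro i hi a
    simp only [dif_pos hi]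
    exact (hmem _).1
  · intro i hi a
    simp only [dif_pos hi]
    exact (hmem _).2

/-- The explicit trade-off: if `w 2^q q^k + 2 ≤ N`, then a correct program with `w` registers has
more than `2^((q-2)k)` instructions. -/
theorem core {s t : Fin N} (hst : s ≠ t) (P : Prog N w) (hP : P.Solves s t) (q k : ℕ)
    (hq : 2 ≤ q) (hN : w * 2 ^ q * q ^ k + 2 ≤ N) : 2 ^ ((q - 2) * k) < P.code.length := by
  by_contra hcon
  rw [not_lt] at hcon
  have hw : 0 < w := lt_of_le_of_lt (Nat.zero_le _) P.out.2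
  set n := w * 2 ^ q with hn
  have hn0 : 0 < n := by positivity
  obtain ⟨L, hLs, hLt⟩ := exists_lay (n := n) (m := q ^ k) s t hst (by rw [mul_comm]; exact hN)
  subst hLs
  subst hLt
  obtain ⟨q', rfl⟩ : ∃ q', q = q' + 2 := ⟨q - 2, by omega⟩
  rw [Nat.add_sub_cancel, pow_mul] at hcon
  have h1 := GG_half L P hP hn0 (q' + 2) (2 ^ q') (by rw [pow_add]; omega)
    (by rw [hn, pow_add]; exact le_of_eq (by ring)) k 0 0 (by omega)
  have h2 : GG L (cont P.code P.out) P.code 0 ((q' + 2) ^ k) 0 (0 + (2 ^ q') ^ k) = Set.univ := by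
    rw [Set.eq_univ_iff_forall]
    intro v
    obtain ⟨u, hu⟩ : ∃ u : ℕ → Fin n, ∀ i : Fin ((q' + 2) ^ k), u (0 + i) = v i :=
      ⟨fun i => if h : i < (q' + 2) ^ k then v ⟨i, h⟩ else ⟨0, hn0⟩, fun i => by simp⟩
    refine ⟨u, hu, ?_, (2 ^ q') ^ k, by positivity, by omega, P.out, L.M u, 0,
      ⟨?_, ?_, ?_⟩, ?_⟩
    · rintro r β q ⟨-, hmem, -⟩
      simp [cont] at hmem
    · rw [add_zero]
    · rw [List.take_of_length_le hcon]
      exact final_path L P hP hn0 _
    · intro p hp
      rw [List.take_of_length_le hcon] at hp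
      have : p + ((0, 0) : Term N) = p := by
        exact add_zero p
      rw [this]
      exact hp
    · intro i _ hi
      exact L.mem_M.mpr ⟨i, by omega, rfl⟩
  rw [h2, Set.ncard_univ, Nat.card_fun, Nat.card_fin, Nat.card_fin] at h1
  have h3 : 0 < n ^ ((q' + 2) ^ k) := by positivity
  omega

/-! ### Choice of the parameters -/

/-- **Main theorem.** Let `P` be a straight-line program over `(min, +)` with `w` registers that
computes the distance from `s` to `t ≠ s` in every digraph on `N ≥ 16` vertices. If it has at most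
`N ^ c` instructions, `c ≥ 1`, then `w ≥ N / exp (8 √(c log N log log N))`. -/
theorem main {N w : ℕ} (hN : 16 ≤ N) {s t : Fin N} (hst : s ≠ t) (P : Prog N w)
    (hP : P.Solves s t) {c : ℝ} (hc : 1 ≤ c) (hlen : (P.code.length : ℝ) ≤ (N : ℝ) ^ c) :
    (N : ℝ) ≤ w * Real.exp (8 * √(c * Real.log N * Real.log (Real.log N))) := by
  have hw : 0 < w := lt_of_le_of_lt (Nat.zero_le _) P.out.2
  have hw1 : (1 : ℝ) ≤ w := by exact_mod_cast hw
  have hNr : (16 : ℝ) ≤ N := by exact_mod_cast hN
  have hN0 : (0 : ℝ) < N := by linarith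
  set l : ℝ := Real.log N with hl
  have hl1 : (2.77 : ℝ) ≤ l := by
    have h1 : Real.log 16 ≤ l := Real.log_le_log (by norm_num) hNr
    have h2 : Real.log 16 = 4 * Real.log 2 := by
      rw [show (16 : ℝ) = 2 ^ 4 by norm_num, Real.log_pow]
      norm_num
    have h3 := Real.log_two_gt_d9
    rw [h2] at h1
    linarith
  set ll : ℝ := Real.log l with hll
  have hll1 : 1 ≤ ll := by
    rw [hll, Real.le_log_iff_exp_le (by linarith)]
    have := Real.exp_one_lt_d9
    linarith
  have hlll : ll ≤ l := by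
    have := Real.log_le_sub_one_of_pos (show 0 < l by linarith)
    linarith
  set R : ℝ := √(c * l * ll) with hR
  have hR2 : R ^ 2 = c * l * ll := Real.sq_sqrt (by positivity)
  have hR0 : 0 ≤ R := Real.sqrt_nonneg _
  have hRbig : (1.66 : ℝ) ≤ R := by
    apply Real.le_sqrt_of_sq_le
    have h1 : (2.77 : ℝ) ≤ l * ll := by nlinarith
    have h2 : l * ll ≤ c * (l * ll) := le_mul_of_one_le_left (by positivity) hc
    have h3 : c * l * ll = c * (l * ll) := by ring
    rw [h3]
    linarith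
  have hllR : ll ≤ R := by
    apply Real.le_sqrt_of_sq_le
    have h1 : ll ^ 2 ≤ l * ll := by nlinarith
    have h2 : l * ll ≤ c * (l * ll) := le_mul_of_one_le_left (by positivity) hc
    have h3 : c * l * ll = c * (l * ll) := by ring
    rw [h3]
    linarith
  rcases le_or_gt l R with hbig | hsmall
  · -- the bound is trivial
    calc (N : ℝ) = Real.exp l := (Real.exp_log hN0).symm
      _ ≤ Real.exp (8 * R) := Real.exp_le_exp.mpr (by linarith)
      _ = 1 * Real.exp (8 * R) := (one_mul _).symm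
      _ ≤ w * Real.exp (8 * R) := by gcongr
  · set q : ℕ := ⌈R⌉₊ + 2 with hq
    set k : ℕ := ⌈3 / 2 * (R / ll)⌉₊ with hk
    have hq1 : R + 2 ≤ (q : ℝ) := by
      rw [hq]; push_cast
      have := Nat.le_ceil R
      linarith
    have hq2 : (q : ℝ) ≤ R + 3 := by
      rw [hq]; push_cast
      have := Nat.ceil_lt_add_one hR0
      linarith
    have hk1 : 3 / 2 * (R / ll) ≤ (k : ℝ) := Nat.le_ceil _
    have hk2 : (k : ℝ) ≤ 3 / 2 * (R / ll) + 1 :=
      (Nat.ceil_lt_add_one (by positivity)).le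
    have hcast : (((q - 2) * k : ℕ) : ℝ) = ((q : ℝ) - 2) * k := by
      rw [hq, Nat.add_sub_cancel]; push_cast; ring
    have hqk : 3 / 2 * (c * l) ≤ (((q - 2) * k : ℕ) : ℝ) := by
      rw [hcast]
      have h1 : R * (3 / 2 * (R / ll)) = 3 / 2 * (c * l) := by
        have : R * (3 / 2 * (R / ll)) = 3 / 2 * (R ^ 2 / ll) := by ring
        rw [this, hR2]
        field_simp
      rw [← h1]
      exact mul_le_mul (by linarith) hk1 (by positivity) (by linarith)
    have hlog2 := Real.log_two_gt_d9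
    have hlog2' := Real.log_two_lt_d9
    have hlen2 : P.code.length ≤ 2 ^ ((q - 2) * k) := by
      have h1 : (N : ℝ) ^ c ≤ ((2 ^ ((q - 2) * k) : ℕ) : ℝ) := by
        rw [Real.rpow_def_of_pos hN0]
        push_cast
        rw [← Real.exp_log (show (0 : ℝ) < 2 ^ ((q - 2) * k) by positivity), Real.log_pow]
        apply Real.exp_le_exp.mpr
        have h2 : 3 / 2 * (c * l) * Real.log 2 ≤ (((q - 2) * k : ℕ) : ℝ) * Real.log 2 :=
          mul_le_mul_of_nonneg_right hqk (by linarith)
        have h3 : 0 < c * l := by positivity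
        nlinarith
      exact_mod_cast hlen.trans h1
    have hN2 : N < w * 2 ^ q * q ^ k + 2 := by
      by_contra hcon
      rw [not_lt] at hcon
      exact absurd (core hst P hP q k (by omega) hcon) (not_lt.mpr hlen2)
    have hq0 : 0 < q := by omega
    have hX1 : 1 ≤ w * 2 ^ q * q ^ k := Nat.one_le_iff_ne_zero.mpr (by positivity)
    have hN3 : N ≤ w * 2 ^ (q + 1) * q ^ k := by
      have : w * 2 ^ (q + 1) * q ^ k = 2 * (w * 2 ^ q * q ^ k) := by ring
      omega
    have hN4 : (N : ℝ) ≤ w * ((2 : ℝ) ^ (q + 1) * (q : ℝ) ^ k) := by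
      have : (N : ℝ) ≤ ((w * 2 ^ (q + 1) * q ^ k : ℕ) : ℝ) := by exact_mod_cast hN3
      refine this.trans (le_of_eq ?_)
      push_cast
      ring
    refine hN4.trans ?_
    have hq0' : (0 : ℝ) < q := by exact_mod_cast hq0
    have hpos : (0 : ℝ) < (2 : ℝ) ^ (q + 1) * (q : ℝ) ^ k := by positivity
    refine mul_le_mul_of_nonneg_left ?_ (by linarith)
    rw [← Real.exp_log hpos]
    apply Real.exp_le_exp.mpr
    rw [Real.log_mul (by positivity) (by positivity), Real.log_pow, Real.log_pow]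
    push_cast
    have hlogq : Real.log q ≤ 2 * ll := by
      have h1 : (q : ℝ) ≤ l ^ 2 := by nlinarith
      calc Real.log q ≤ Real.log (l ^ 2) := Real.log_le_log hq0' h1
        _ = 2 * ll := by rw [Real.log_pow]; push_cast; rfl
    have hlogq0 : 0 ≤ Real.log q := Real.log_nonneg (by linarith)
    have h5 : (k : ℝ) * Real.log q ≤ (3 / 2 * (R / ll) + 1) * (2 * ll) :=
      mul_le_mul hk2 hlogq hlogq0 (by positivity)
    have h6 : (3 / 2 * (R / ll) + 1) * (2 * ll) = 3 * R + 2 * ll := by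
      field_simp
    have h7 : ((q : ℝ) + 1) * Real.log 2 ≤ (R + 4) * 0.7 :=
      mul_le_mul (by linarith) (by linarith) (by linarith) (by linarith)
    linarith

end Pool.Agent.Lib.MP_f83138_lc.MinPlus
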